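import Pool.Agent.Lib.MP_ab8df0_nt.A.N4.Def

/-! Small primes. -/

namespace Pool.Agent.Lib.MP_ab8df0_nt.A.N4

open Pool.Agent.Lib.MP_ab8df0_nt.A

theorem a0 : CovA fl 30 274522 m 2 ρ 0 (0 + 60) := covA _ _ _ _ _ _ _ _
  [(0, []),
  (0, [⟨[2, 1, 2], 1, 3, [2, 4], [0, 6, 4, -2, 0, 0, -4, -1, 1, 0, 0, 1]⟩, ⟨[5, 1, 5, 6, 3, 1, 3, 6, 5, 0, 2, 5], 1, 7, [1, 0, 0, 5, 3, 0, 1, 1, 3, 6, 1, 5], []⟩]),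
  (0, [⟨[8, 0, 0, 0, 0], 1, 5, [0, 8], [-6, 0, 0, 0, 14, 6, 0, 0, 0, -7, -1, 0, 0, 0, 1]⟩, ⟨[5, 0, 0, 0, 0, 9, 0, 0, 0, 0], 1, 6, [10, 0, 0, 0, 0, 2], []⟩]),
  (0, [⟨[10, 4, 7], 1, 3, [5, 1, 6], [8, -4, 2, 0, -8, -6, 4, -1, 0, 5, 1, -1, 0, 0, -1]⟩, ⟨[10, 9, 5, 7, 5, 0, 5, 5, 1, 7, 12, 6], 1, 5, [11, 2, 9, 9, 2, 4, 10, 6, 4, 8, 2, 9], []⟩]),
  (0, [⟨[10], 1, 1, [1], [0, 0, 2, 8, 0, 0, 0, -1, -5, 0, 0, 0, 0, 1]⟩, ⟨[3, 0], 1, 2, [0, 14], [0, 4, -2, -8, 8, 0, -4, 1, 5, -5, 0, 1, 0, -1, 1]⟩, ⟨[8, 13, 8, 10], 1, 4, [8, 15, 4], [-2, -6, -2, -4, 10, 4, 4, 1, 4, -6, -1, -1, 0, -1, 1]⟩, ⟨[13, 3, 2, 7], 1, 4, [0, 6, 13], [0, -10, 6, 0, 0, 0, 8, -1, 0, 0, 0, -2]⟩, ⟨[8, 4, 8, 7], 1, 4, [9, 15, 13], [4, 4, -4, 2, 2, 0, -4, 4, -1,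 -1, 0, 1, -1]⟩]),
  (0, [⟨[16, 10, 1], 1, 3, [18, 12, 5], [4, 0, 4, -2, -8, -4, 0, -1, 1, 5, 1, 0, 0, 0, -1]⟩, ⟨[10, 2, 7, 0, 1, 14], 1, 5, [5, 16, 14, 11, 18, 14], []⟩, ⟨[10, 6, 18, 13, 6, 4], 1, 5, [7, 8, 2, 5, 18], []⟩]),
  (0, [⟨[22], 1, 1, [1], [2, 0, -4, -2, 0, 0, 0, 1, 1]⟩, ⟨[13, 10], 1, 2, [4, 13], [0, 2, 4, -6, 0, 0, 0, -1, 5, 0, 0, 0, 0, -1]⟩, ⟨[22, 1, 22, 1], 1, 4, [0, 14, 14], []⟩, ⟨[15, 14, 22, 7], 1, 4, [12, 1, 3, 3], []⟩, ⟨[15, 1, 22, 6], 1, 4, [12, 21, 10, 9], []⟩]),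
  (0, [⟨[5], 1, 1, [1], [-2, 2, 0, 0, 10, 0, 0, 0, 0, -6, 0, 0, 0, 0, 1]⟩, ⟨[4, 28], 1, 2, [17, 5], [0, -2, -8, -2, 8, 0, 0, 5, 1, -5, 0, 0, -1, 0, 1]⟩, ⟨[4, 25], 1, 2, [18, 9], [0, 0, 2, -2, 8, 0, 0, -1, 1, -5, 0, 0, 0, 0, 1]⟩, ⟨[13, 0, 0, 0, 0, 13, 0, 0, 0, 0], 1, 4, [5, 7, 23, 13, 0, 21, 26, 8, 28], []⟩]),
  (0, [⟨[7], 1, 1, [1], [0, 0, -2, 0, 10, 0, 0, 1, 0, -6, 0, 0, 0, 0, 1]⟩, ⟨[28], 1, 1, [1], [4, 0, 4, 0, 0, -4, 0, -1, 0, 0, 1]⟩, ⟨[25], 1, 1, [1], [4, 0, -4, 0, -8, -4, 0, 1, 0, 5, 1, 0, 0, 0, -1]⟩, ⟨[14], 1, 1, [1], [0, 6, 2, 0, 0, 0, -4, -1, 0, 0, 0, 1]⟩, ⟨[19], 1, 1, [1], [2, 2, -2]⟩, ⟨[17, 0, 0, 0, 0], 1, 4, [0, 0, 19], []⟩, ⟨[15, 0, 0, 0, 0], 1, 4, [0, 0, 12], []⟩]),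
  (0, [⟨[21, 18, 1], 1, 3, [34, 9, 11], [-2, 4, -10, 10, 2, 0, 0, 5, -6, -1, 0, 0, -1, 1]⟩, ⟨[28, 13, 21, 25, 24, 8, 2, 29, 23, 16, 18, 36], 1, 4, [1, 1, 18, 12, 22, 13, 30, 2, 5, 21, 2, 33], []⟩]),
  (0, [⟨[18, 0, 0, 0, 0], 1, 4, [0, 0, 25], []⟩, ⟨[18, 0, 0, 0, 0, 29, 0, 0, 0, 0], 1, 4, [0, 0, 15, 0, 0, 0, 0, 6], []⟩]),
  (0, [⟨[9], 1, 1, [1], [0, 2, -4, 0, -8, 0, 0, 1, 0, 5, 0, 0, 0, 0, -1]⟩, ⟨[2], 1, 1, [1], [2, -2, 0, -2, 8, 0, 0, 0, 1, -5, 0, 0, 0, 0, 1]⟩, ⟨[37], 1, 1, [1], [0, 0, -4, 8, 0, 0, 0, 1, -5, 0, 0, 0, 0, 1]⟩, ⟨[37, 1, 7, 6], 1, 4, [0, 33, 27], []⟩, ⟨[18, 2, 5, 34], 1, 4, [0, 32, 6], []⟩, ⟨[27, 35, 39, 41], 1, 4, [0, 7, 18], []⟩]),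
  (0, [⟨[10], 1, 1, [1], [-6, 4, 0, 0, 0, 4, -4, 0, 0, 0, -1, 1]⟩, ⟨[25, 30], 1, 2, [24, 36], [-2, 4, -10, 0, 0, 4, -4, 6, 0, 0, -1, 1, -1]⟩, ⟨[33, 3, 12, 19], 1, 4, [39, 26, 35, 33], []⟩, ⟨[33, 42, 12, 45], 1, 4, [37, 22, 26, 33], []⟩, ⟨[11, 34, 41, 37], 1, 4, [0, 41, 10], []⟩]),
  (7, []),
  (0, [⟨[28], 1, 1, [1], [0, 0, -2, 8, 8, 0, 0, 1, -5, -5, 0, 0, 0, 1, 1]⟩, ⟨[1, 39], 1, 2, [10, 9], [4, 0, -2, -8, -16, -4, 0, 0, 5, 10, 1, 0, 0, -1, -2]⟩, ⟨[52, 34, 13, 48], 1, 4, [31, 42, 3, 20], []⟩, ⟨[38, 43, 11, 25], 1, 4, [0, 41, 8], []⟩, ⟨[52, 5, 13, 19], 1, 4, [46, 48, 12, 29], []⟩]),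
  (0, [⟨[23], 1, 1, [1], [2, 2, 0, 0, 8, 0, 0, 0, 0, -5, 0, 0, 0, 0, 1]⟩, ⟨[2, 51], 1, 2, [13, 18], [2, 0, -4, -10, 2, 0, 0, 1, 6, -1, 0, 0, 0, -1]⟩, ⟨[2, 44], 1, 2, [5, 40], [-2, 0, -6, -8, 0, 4, 0, 4, 5, 0, -1, 0, -1, -1]⟩, ⟨[41, 0, 0, 0, 0, 32, 0, 0, 0, 0], 1, 4, [35, 27, 43, 1, 0, 7, 25, 22, 35], []⟩])] (by decide +kernel)

theorem a1 : CovA fl 30 274522 m 2 ρ 60 (60 + 140) := covA _ _ _ _ _ _ _ _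
  [(0, [⟨[4, 0, 0, 0, 0, 49, 0, 0, 0, 0, 6, 0, 0, 0, 0], 1, 4, [0, 0, 5, 0, 0, 0, 0, 32, 0, 0, 0, 0, 58], []⟩]),
  (0, [⟨[6, 52, 3], 1, 3, [49, 1, 55], []⟩, ⟨[44, 43, 52, 60, 53, 35, 4, 46, 63, 57, 6, 64], 1, 3, [2, 14, 37, 1, 11, 51, 18, 33, 4, 15, 51, 4], []⟩]),
  (0, [⟨[15, 0, 0, 0, 0], 1, 3, [0, 0, 0, 53], []⟩, ⟨[66, 0, 0, 0, 0, 62, 0, 0, 0, 0], 1, 3, [0, 0, 0, 7, 0, 0, 0, 0, 36], []⟩]),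
  (0, [⟨[16, 30, 24], 1, 3, [3, 70, 70], []⟩, ⟨[18, 21, 34, 61, 23, 69, 27, 7, 10, 50, 51, 49], 1, 3, [47, 2, 54, 58, 22, 8, 4, 61, 20, 15, 28, 18], []⟩]),
  (7, []),
  (0, [⟨[45, 2, 76], 1, 3, [24, 68, 77], []⟩, ⟨[29, 14, 40, 19, 49, 11], 1, 3, [32, 65, 66, 59, 8, 29], []⟩, ⟨[29, 76, 54, 9, 10, 71], 1, 3, [19, 57, 50, 31, 5, 59], []⟩]),
  (0, [⟨[68], 1, 1, [1], [2, 0, 0, 8, 0, -2, 0, 0, -5, 0, 0, 0, 0, 1]⟩, ⟨[76, 35], 1, 2, [1, 45], [2, 4, 8, 4, 0, 0, -4, -5, -1, 0, 0, 1, 1]⟩, ⟨[34, 33, 41, 67], 1, 3, [10, 49, 31, 53], []⟩, ⟨[5, 55, 24, 15], 1, 3, [74, 67, 0, 2], []⟩, ⟨[34, 54, 41, 64], 1, 3, [3, 71, 8, 24], []⟩]),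
  (0, [⟨[58], 1, 1, [1], [2, 0, -2, 8, 0, 0, 0, 1, -5, 0, 0, 0, 0, 1]⟩, ⟨[18, 77], 1, 2, [84, 14], [-2, 0, -8, -8, 10, 4, 0, 5, 5, -6, -1, 0, -1, -1, 1]⟩, ⟨[18, 43], 1, 2, [71, 65], [2, -2, -4, 12, 8, 0, 0, 4, -6, -5, 0, 0, -1, 1, 1]⟩, ⟨[75, 0, 0, 0, 0, 82, 0, 0, 0, 0], 1, 3, [31, 4, 20, 50, 79, 68, 9, 48, 38, 15], []⟩]),
  (7, []),
  (0, [⟨[54, 31, 12], 1, 3, [13, 12, 9], []⟩, ⟨[61, 53, 62, 31, 70, 1, 6, 12, 87, 93, 19, 85], 1, 3, [72, 66, 68, 77, 63, 93, 64, 83, 84, 53, 41, 62], []⟩]),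
  (0, [⟨[22, 11], 1, 2, [16, 43], [4, 2, 6, -4, 0, -4, 0, -5, 4, 0, 1, 0, 1, -1]⟩, ⟨[70, 48], 1, 2, [71, 77], [2, 0, -8, -2, 8, 2, 0, 5, 1, -5, -1, 0, -1, 0, 1]⟩, ⟨[30, 93], 1, 2, [79, 45], [-2, 6, 2, 0, -2, 0, -2, -1, 0, 1]⟩, ⟨[85, 35], 1, 2, [31, 4], [0, -2, 4, 4, 0, 0, 0, -1, -1]⟩, ⟨[96, 15], 1, 2, [5, 33], [2, 4, 2, -8, 8, -2, -4, 0, 5, -5, 0, 1, 0, -1, 1]⟩, ⟨[33, 0, 0, 0, 0], 1, 3, [0, 0, 0, 19], []⟩]),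
  (0, [⟨[83, 70, 84], 1, 3, [84, 41, 58], []⟩, ⟨[62, 11, 62, 85, 99, 20, 85, 83, 80, 63, 84, 19], 1, 3, [74, 53, 10, 2, 24, 33, 5, 52, 52, 26, 35, 99], []⟩]),
  (0, [⟨[43], 1, 1, [1], [0, 0, -8, 2, 0, 0, 0, 5, -1, 0, 0, 0, -1]⟩, ⟨[75, 27], 1, 2, [15, 94], [2, 0, -8, -10, 0, 0, 0, 4, 6, 0, 0, 0, -1, -1]⟩, ⟨[46, 55, 9, 95], 1, 3, [101, 45, 60, 26], []⟩, ⟨[63, 101, 77, 64], 1, 3, [97, 82, 71], []⟩, ⟨[46, 44, 9, 92], 1, 3, [29, 78, 84, 89], []⟩]),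
  (0, [⟨[17], 1, 1, [1], [0, -2, 2, 2, 8, 0, 0, -1, -1, -5, 0, 0, 0, 0, 1]⟩, ⟨[66], 1, 1, [1], [0, 2, -8, 10, 0, 0, 0, 5, -6, 0, 0, 0, -1, 1]⟩, ⟨[54], 1, 1, [1], [2, 4, 0, 2, 8, 0, -4, 0, -1, -5, 0, 1, 0, 0, 1]⟩, ⟨[4, 37], 1, 2, [84, 75], [-2, 4, -10, -4, 0, 0, -4, 6, 4, 0, 0, 1, -1, -1]⟩, ⟨[38, 61], 1, 2, [33, 15], [-4, 6, 4, -4, 0, 4, -4, -1, 4, 0, -1, 1, 0, -1]⟩, ⟨[27, 60], 1, 2, [30, 108], [4, 6, -8, 2, 8, 0, -4, 5, -1, -5, 0, 1, -1, 0, 1]⟩, ⟨[38, 31], 1, 2, [44, 71], [0, 6, -2, 2, -10, 0, -4, 1, -1, 6, 0, 1, 0, 0, -1]⟩, ⟨[4, 6], 1, 2, [63, 88], [2, -2, -4, 4, 10, 0, 0, 1, -1, -6, 0, 0, 0, 0, 1]⟩, ⟨[27, 104], 1, 2, [77, 9], [-6, 4, -2, 2, 0, 4, -4, 0, -1, 0, -1, 1]⟩]),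
  (0, [⟨[10], 1, 1, [1], [0, 0, -4, 10, 8, 0, 0, 1, -6, -5, 0, 0, 0, 1, 1]⟩, ⟨[84, 97], 1, 2, [58, 92], [2, -6, -2, 0, 0, -2, 4, 1, 0, 0, 1, -1]⟩, ⟨[63, 112, 57, 55], 1, 3, [61, 88, 37, 66], []⟩, ⟨[63, 13, 57, 74], 1, 3, [106, 71, 13, 71], []⟩, ⟨[57, 17, 13, 103], 1, 3, [73, 109, 0, 27], []⟩]),
  (7, []),
  (11, []),
  (0, [⟨[42], 1, 1, [1], [0, 0, 4, 2, 8, 0, 0, -1, 0, -5, 0, 0, 0, 0, 1]⟩, ⟨[9], 1, 1, [1], [4, 0, -8, 10, 0, -4, 0, 5, -6, 0, 1, 0, -1, 1]⟩, ⟨[21], 1, 1, [1], [2, 2, 2, 8, 8, 0, 0, -1, -5, -5, 0, 0, 0, 1, 1]⟩, ⟨[43, 33, 46, 118], 1, 3, [74, 117, 26], []⟩, ⟨[83, 10, 67, 106], 1, 3, [11, 94, 15], []⟩, ⟨[58, 80, 14, 85], 1, 3, [98, 107, 120], []⟩]),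
  (0, [⟨[129], 1, 1, [1], [4, 2]⟩, ⟨[15], 1, 1, [1], [0, 0, 4, 0, 10, 0, 0, -1, 0, -6, 0, 0, 0, 0, 1]⟩, ⟨[25], 1, 1, [1], [6, -2, 2, 0, 0, -4, 0, 0, 0, 0, 1]⟩, ⟨[9], 1, 1, [1], [2, 0, -6, 0, 0, 0, 0, 4, 0, 0, 0, 0, -1]⟩, ⟨[84], 1, 1, [1], [4, 0, 2, 0, -8, -4, 0, -1, 0, 5, 1, 0, 0, 0, -1]⟩, ⟨[82, 0, 0, 0, 0, 38, 0, 0, 0, 0], 1, 3, [0, 0, 0, 86, 0, 0, 0, 0, 72], []⟩]),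
  (7, []),
  (0, [⟨[52], 1, 1, [1], [4, 2, 2, 0, 8, -4, 0, -1, 0, -5, 1, 0, 0, 0, 1]⟩, ⟨[117, 97], 1, 2, [18, 42], [2, 6, 6, 4, 8, 0, -4, -2, -1, -5, 0, 1, 0, 0, 1]⟩, ⟨[11, 35, 104, 4], 1, 3, [42, 68, 33, 17], []⟩, ⟨[11, 80, 104, 36], 1, 3, [6, 40, 100, 131], []⟩, ⟨[74, 91, 36, 85], 1, 3, [102, 109, 20], []⟩]),
  (0, [⟨[46, 77, 37], 1, 3, [12, 17, 134], []⟩, ⟨[108, 118, 130, 86, 7, 134], 1, 3, [95, 46, 43, 70, 87, 32], []⟩, ⟨[108, 88, 0, 76, 97, 107], 1, 3, [67, 125, 32, 25, 125, 76], []⟩]),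
  (11, []),
  (0, [⟨[145], 1, 1, [1], [2, 0, 0, 8, 8, -4, 0, 0, -5, -5, 1, 0, 0, 1, 1]⟩, ⟨[133, 138], 1, 2, [73, 81], [-2, 0, -12, -4, -8, 4, 0, 6, 1, 5, -1, 0, -1, 0, -1]⟩, ⟨[133, 15], 1, 2, [113, 124], [0, -6, 2, -8, 0, 2, 4, -1, 5, 0, -1, -1, 0, -1]⟩, ⟨[39, 0, 0, 0, 0, 136, 0, 0, 0, 0], 1, 3, [40, 5, 3, 98, 130, 26, 46, 108, 138, 66], []⟩]),
  (0, [⟨[21, 126, 43], 1, 3, [56, 56, 82], []⟩, ⟨[136, 35, 62], 1, 3, [111, 133, 48], []⟩, ⟨[17, 129, 34], 1, 3, [146, 7, 114], []⟩, ⟨[97, 102, 121], 1, 3, [7, 146, 6], []⟩, ⟨[31, 61, 42], 1, 3, [133, 111, 52], []⟩]),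
  (0, [⟨[6], 1, 1, [1], [0, -4, 2, 4, 0, 0, 4, -1, -1, 0, 0, -1]⟩, ⟨[2], 1, 1, [1], [-2, 0, -4, 8, 8, 0, 0, 1, -5, -5, 0, 0, 0, 1, 1]⟩, ⟨[86], 1, 1, [1], [0, 4, -2, 0, -8, 0, -4, 1, 0, 5, 0, 1, 0, 0, -1]⟩, ⟨[117, 98, 121, 151], 1, 3, [75, 124, 146], []⟩, ⟨[141, 149, 153, 155], 1, 3, [47, 51, 51], []⟩, ⟨[25, 108, 140, 71], 1, 3, [48, 66, 49], []⟩]),
  (7, []),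
  (0, [⟨[119, 114, 110], 1, 3, [132, 85, 157], []⟩, ⟨[89, 75, 76, 149, 52, 157, 137, 35, 11, 124, 11, 53], 1, 3, [118, 105, 146, 28, 45, 116, 110, 29, 51, 51, 69, 99], []⟩]),
  (0, [⟨[158], 1, 1, [1], [-2, 4, 2, 0, -8, 0, -4, -1, 0, 5, 0, 1, 0, 0, -1]⟩, ⟨[16, 69], 1, 2, [24, 130], [6, -4, 2, 6, 8, -2, 4, -1, -5, -5, 0, -1, 0, 1, 1]⟩, ⟨[78, 149, 34, 76], 1, 3, [132, 45, 87, 146], []⟩, ⟨[78, 120, 34, 22], 1, 3, [107, 67, 62, 81], []⟩, ⟨[119, 61, 86, 9], 1, 3, [87, 23, 32], []⟩]),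
  (13, []),
  (0, [⟨[78], 1, 1, [1], [0, 0, -2, 12, 0, 0, 0, 1, -6, 0, 0, 0, 0, 1]⟩, ⟨[15, 158], 1, 2, [91, 139], [0, 8, 2, 0, 16, 0, -4, -1, 0, -10, 0, 1, 0, 0, 2]⟩, ⟨[121, 112, 76, 34], 1, 3, [83, 107, 90, 148], []⟩, ⟨[24, 160, 144, 95], 1, 3, [105, 8, 0, 144], []⟩, ⟨[121, 9, 76, 154], 1, 3, [113, 121, 86, 163], []⟩]),
  (0, [⟨[43], 1, 1, [1], [6, 0, -2, 0, 0, -4, 0, 0, 0, 0, 1]⟩, ⟨[120, 139], 1, 2, [148, 79], [10, 0, -4, 10, -8, -8, 0, 1, -6, 5, 2, 0, 0, 1, -1]⟩, ⟨[120, 176], 1, 2, [56, 97], [-6, -2, -8, 0, 2, 4, 0, 5, 0, 0, -1, 0, -1]⟩, ⟨[133, 0, 0, 0, 0, 146, 0, 0, 0, 0], 1, 3, [162, 65, 149, 144, 121, 70, 48, 133, 18, 156], []⟩]),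
  (0, [⟨[4, 0, 0, 0, 0, 169, 0, 0, 0, 0, 6, 0, 0, 0, 0], 1, 3, [0, 0, 0, 99, 0, 0, 0, 0, 77, 0, 0, 0, 0, 114], []⟩]),
  (11, []),
  (0, [⟨[78, 106], 1, 2, [75, 13], [-4, 6, -6, 8, -8, 4, -4, 5, -5, 5, -1, 1, -1, 1, -1]⟩, ⟨[177, 94], 1, 2, [48, 64], [4, 8, -8, 10, 0, 0, -6, 5, -6, 0, 0, 1, -1, 1]⟩, ⟨[27, 123], 1, 2, [46, 80], [-2, 0, 8, -4, 18, 4, 0, -5, 4, -11, -1, 0, 1, -1, 2]⟩, ⟨[98, 37], 1, 2, [60, 100], [2, -6, 4, 8, 8, 2, 4, -4, -5, -5, -1, -1, 1, 1, 1]⟩, ⟨[2, 22], 1, 2, [153, 125], [2, 0, 10, 0, 10, 0, 0, -7, 0, -6, 0, 0, 1, 0, 1]⟩, ⟨[167, 0, 0, 0, 0], 1, 3, [0, 0, 0, 156], []⟩]),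
  (0, [⟨[134, 151, 24], 1, 3, [96, 146, 190], []⟩, ⟨[144, 169, 128, 178, 1, 174, 24, 142, 102, 24, 45, 169], 1, 3, [156, 68, 172, 34, 11, 27, 139, 128, 65, 110, 9, 137], []⟩]),
  (0, [⟨[56], 1, 1, [1], [0, 0, -4, -2, 8, 0, 0, 1, 1, -5, 0, 0, 0, 0, 1]⟩, ⟨[94, 184], 1, 2, [193, 60], [-2, 4, -2, 2, -8, 0, -2, 0, -1, 5, 0, 0, 0, 0, -1]⟩, ⟨[29, 72, 140, 194], 1, 3, [160, 78, 26, 139], []⟩, ⟨[29, 85, 140, 16], 1, 3, [162, 4, 71, 30], []⟩, ⟨[138, 108, 16, 141], 1, 3, [133, 112, 4], []⟩]),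
  (0, [⟨[35, 123, 63], 1, 3, [162, 29, 85], []⟩, ⟨[168, 75, 191, 154, 146, 62], 1, 3, [128, 123, 147, 164, 77, 29], []⟩, ⟨[168, 51, 14, 197, 151, 74], 1, 3, [178, 105, 141, 136, 138], []⟩])] (by decide +kernel)

theorem a2 : CovA fl 30 274522 m 2 ρ 200 (200 + 324) := covA _ _ _ _ _ _ _ _
  [(7, []),
  (11, []),
  (0, [⟨[4, 0, 0, 0, 0, 199, 0, 0, 0, 0, 6, 0, 0, 0, 0], 1, 3, [0, 0, 0, 157, 0, 0, 0, 0, 175, 0, 0, 0, 0, 203], []⟩]),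
  (7, []),
  (13, []),
  (0, [⟨[97], 1, 1, [1], [-2, 0, -6, 8, 0, 0, 0, 4, -5, 0, 0, 0, -1, 1]⟩, ⟨[108], 1, 1, [1], [0, 0, 2, -2, -8, 0, 0, -1, 0, 5, 0, 0, 0, 0, -1]⟩, ⟨[100], 1, 1, [1], [2, -2, -2, 0, -8, -4, 0, 1, 0, 5, 1, 0, 0, 0, -1]⟩, ⟨[113, 155, 35, 123], 1, 3, [79, 61, 0, 33], []⟩, ⟨[59, 15, 155, 115], 1, 3, [61, 110, 0, 77], []⟩, ⟨[158, 66, 180, 126], 1, 3, [195, 25, 0, 204], []⟩]),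
  (0, [⟨[47], 1, 1, [1], [-4, 2, -2, 2, -8, 4, 0, 1, -1, 5, -1, 0, 0, 0, -1]⟩, ⟨[88, 13], 1, 2, [112, 105], [-2, 4, 0, 12, 2, -2, -2, 0, -6, -1, 1, 0, 0, 1]⟩, ⟨[201, 152, 21, 30], 1, 3, [154, 159, 64, 47], []⟩, ⟨[138, 143, 61, 180], 1, 3, [163, 207, 202], []⟩, ⟨[201, 84, 21, 184], 1, 3, [20, 70, 115, 168], []⟩]),
  (0, [⟨[209], 1, 1, [1], [0, 4, 2, -8, 0, 0, -4, -1, 5, 0, 0, 1, 0, -1]⟩, ⟨[81], 1, 1, [1], [4, 4, -8, 8, 0, -4, -4, 5, -5, 0, 1, 1, -1, 1]⟩, ⟨[42], 1, 1, [1], [2, 4, -6, 0, 0, 0, -4, 5, 0, 0, 0, 1, -1]⟩, ⟨[80, 228], 1, 2, [112, 224], [-4, 0, 4, 16, -10, 4, 0, -1, -10, 6, -1, 0, 0, 2, -1]⟩, ⟨[58, 37], 1, 2, [96, 1], [0, -2, 8, -4, -8, 2, 0, -5, 4, 5, -1, 0, 1, -1, -1]⟩, ⟨[68, 220], 1, 2, [216, 48], [-2,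 -2, -8, -20, 0, 0, 0, 5, 12, 0, 0, 0, -1, -2]⟩, ⟨[80, 149], 1, 2, [199, 171], [0, 6, -10, 2, 2, 0, -4, 5, -1, -1, 0, 1, -1]⟩, ⟨[68, 196], 1, 2, [73, 53], [4, 6, -2, 2, -18, -4, -4, 1, 0, 11, 1, 1, 0, 0, -2]⟩, ⟨[58, 212], 1, 2, [7, 149], [2, 4, 10, 0, 2, -4, -4, -6, 0, -1, 1, 1, 1]⟩]),
  (0, [⟨[29], 1, 1, [1], [0, 4, 2, 0, 10, 0, -4, -1, 0, -6, 0, 1, 0, 0, 1]⟩, ⟨[148, 137], 1, 2, [38, 127], [2, 4, -6, -16, 0, 0, -4, 4, 10, 0, 0, 1, -1, -2]⟩, ⟨[107, 76, 91, 204], 1, 3, [106, 84, 0, 51], []⟩, ⟨[231, 31, 126, 60], 1, 3, [52, 227, 231, 93], []⟩, ⟨[231, 207, 126, 36], 1, 3, [97, 31, 5, 170], []⟩]),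
  (0, [⟨[58], 1, 1, [1], [0, 0, -8, 8, 2, 0, 0, 5, -5, -1, 0, 0, -1, 1]⟩, ⟨[221, 153], 1, 2, [46, 90], [4, -2, 8, 4, 0, -4, 0, -2, -1, 0, 1]⟩, ⟨[221, 28], 1, 2, [90, 96], [2, 6, 4, -10, 8, 0, -4, -4, 6, -5, 0, 1, 1, -1, 1]⟩, ⟨[137, 0, 0, 0, 0, 95, 0, 0, 0, 0], 1, 3, [80, 59, 102, 152, 75, 213, 31, 141, 92, 173], []⟩]),
  (0, [⟨[60, 48, 52], 1, 3, [106, 177, 224], []⟩, ⟨[9, 79, 153], 1, 3, [40, 216, 140], []⟩, ⟨[158, 125, 186], 1, 3, [6, 235, 208], []⟩, ⟨[159, 200, 35], 1, 3, [64, 135, 21], []⟩, ⟨[96, 30, 56], 1, 3, [25, 201, 130], []⟩]),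
  (13, []),
  (0, [⟨[12, 0, 0, 0, 0], 1, 3, [0, 0, 0, 42], []⟩, ⟨[167, 0, 0, 0, 0, 245, 0, 0, 0, 0], 1, 3, [0, 0, 0, 190, 0, 0, 0, 0, 227], []⟩]),
  (11, []),
  (0, [⟨[122], 1, 1, [1], [-6, 0, -6, 0, -8, 4, 0, 5, 0, 5, -1, 0, -1, 0, -1]⟩, ⟨[118, 173], 1, 2, [40, 209], [0, 4, -8, 10, -18, 0, -2, 5, -6, 11, 0, 0, -1, 1, -2]⟩, ⟨[30, 114, 22, 135], 1, 3, [243, 179, 24], []⟩, ⟨[211, 30, 43, 228], 1, 3, [144, 43, 150, 33], []⟩, ⟨[211, 81, 43, 113], 1, 3, [189, 175, 211, 186], []⟩]),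
  (7, []),
  (0, [⟨[248], 1, 1, [1], [2, 6, 2, -4, 0, 0, -4, -1, 1, 0, 0, 1]⟩, ⟨[240, 132], 1, 2, [177, 81], [-2, -2, 0, 14, 0, 0, 4, 0, -7, 0, 0, -1, 0, 1]⟩, ⟨[134, 219, 38, 15], 1, 3, [245, 159, 0, 202], []⟩, ⟨[260, 109, 3, 172], 1, 3, [169, 222, 48, 171], []⟩, ⟨[260, 11, 3, 222], 1, 3, [4, 78, 13, 214], []⟩]),
  (0, [⟨[59], 1, 1, [1], [-4, 4, -2, 8, 0, 4, -4, 1, -5, 0, -1, 1, 0, 1]⟩, ⟨[16, 56], 1, 2, [267, 173], [4, -2, -2, -6, -8, -4, 4, 1, 4, 5, 1, -1, 0, -1, -1]⟩, ⟨[16, 154], 1, 2, [116, 264], [2, -2, -8, 20, 0, -4, 0, 5, -11, 0, 1, 0, -1, 2]⟩, ⟨[242, 0, 0, 0, 0, 235, 0, 0, 0, 0], 1, 3, [204, 162, 95, 150, 217, 6, 165, 63, 48, 175], []⟩]),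
  (0, [⟨[4, 0, 0, 0, 0, 259, 0, 0, 0, 0, 6, 0, 0, 0, 0], 1, 3, [0, 0, 0, 266, 0, 0, 0, 0, 89, 0, 0, 0, 0, 9], []⟩]),
  (0, [⟨[234], 1, 1, [1], [2, 4, 2, 8, 0, 0, -4, -1, -5, 0, 0, 1, 0, 1]⟩, ⟨[118], 1, 1, [1], [2, 0, -10, 4, 0, 0, 0, 6, -1, 0, 0, 0, -1]⟩, ⟨[230], 1, 1, [1], [2, 0, -2, -8, 0, 0, 0, 0, 5, 0, 0, 0, 0, -1]⟩, ⟨[210, 8, 90, 43], 1, 3, [261, 187, 191], []⟩, ⟨[228, 225, 7, 47], 1, 3, [190, 163, 52], []⟩, ⟨[64, 132, 203, 159], 1, 3, [274, 196, 116], []⟩]),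
  (0, [⟨[158], 1, 1, [1], [4, 0, -8, 0, 0, -2, 0, 5, 0, 0, 0, 0, -1]⟩, ⟨[170], 1, 1, [1], [-2, 0, 2, 0, 10, 0, 0, -1, 0, -6, 0, 0, 0, 0, 1]⟩, ⟨[100], 1, 1, [1], [6, 0, 4, 2, 0, -4, 0, -1, -1, 0, 1]⟩, ⟨[126], 1, 1, [1], [2, 0, -8, 8, 8, 0, 0, 5, -5, -5, 0, 0, -1, 1, 1]⟩, ⟨[8], 1, 1, [1], [2, 2, 8, 0, 2, 0, 0, -5, 0, -1, 0, 0, 1]⟩, ⟨[98, 0, 0, 0, 0, 115, 0, 0, 0, 0], 1, 3, [0, 0, 0, 188, 0, 0, 0, 0, 123], []⟩]),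
  (0, [⟨[92], 1, 1, [1], [0, -2, 2, -2, -8, 0, 0, -1, 1, 5, 0, 0, 0, 0, -1]⟩, ⟨[115], 1, 1, [1], [2, 4, -2, 0, 0, 0, -2, 1]⟩, ⟨[139], 1, 1, [1], [4, 0, -4, -10, 0, -4, 0, 1, 6, 0, 1, 0, 0, -1]⟩, ⟨[167, 250, 76, 168], 1, 3, [35, 271, 0, 209], []⟩, ⟨[14, 51, 206, 144], 1, 3, [197, 91, 0, 55], []⟩, ⟨[173, 128, 26, 191], 1, 3, [37, 65, 0, 134], []⟩]),
  (7, []),
  (17, []),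
  (0, [⟨[187], 1, 1, [1], [6, 0, 4, -10, 0, -4, 0, -1, 6, 0, 1, 0, 0, -1]⟩, ⟨[162, 2], 1, 2, [222, 71], [6, 0, -4, -14, -8, -2, 0, 4, 7, 5, 0, 0, -1, -1, -1]⟩, ⟨[144, 264, 191, 106], 1, 3, [266, 97, 0, 270], []⟩, ⟨[126, 280, 96, 224], 1, 3, [33, 175, 32, 19], []⟩, ⟨[126, 44, 96, 67], 1, 3, [43, 167, 15, 273], []⟩]),
  (13, []),
  (7, []),
  (0, [⟨[73], 1, 1, [1], [-6, 6, -2, 0, 0, 4, -4, 1, 0, 0, -1, 1]⟩, ⟨[218], 1, 1, [1], [6, 0, 0, -2, 0, -4, 0, 0, 1, 0, 1]⟩, ⟨[287], 1, 1, [1], [-4, 0, -10, -2, 0, 4, 0, 5, 1, 0, -1, 0, -1]⟩, ⟨[270, 97, 61, 89], 1, 3, [306, 188, 151], []⟩, ⟨[254, 18, 214, 20], 1, 3, [136, 58, 117], []⟩, ⟨[180, 259, 197, 234], 1, 3, [48, 55, 73], []⟩]),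
  (0, [⟨[154, 0, 0, 0, 0], 1, 3, [0, 0, 0, 184], []⟩, ⟨[210, 0, 0, 0, 0, 163, 0, 0, 0, 0], 1, 3, [0, 0, 0, 141, 0, 0, 0, 0, 190], []⟩]),
  (0, [⟨[194, 177, 233], 1, 3, [239, 4, 86], []⟩, ⟨[171, 207, 164, 248, 128, 180, 6, 92, 297, 201, 309, 80], 1, 3, [7, 109, 303, 210, 182, 249, 95, 94, 239, 163, 271, 242], []⟩]),
  (0, [⟨[49], 1, 1, [1], [2, 0, 0, 2, -8, -4, 0, 0, -1, 5, 1, 0, 0, 0, -1]⟩, ⟨[160, 199], 1, 2, [77, 141], [-2, 8, -2, -2, -16, 4, -6, 1, 1, 10, -1, 1, 0, 0, -2]⟩, ⟨[161, 275, 135, 268], 1, 3, [232, 80, 165], []⟩, ⟨[77, 255, 178, 288], 1, 3, [134, 136, 156, 315], []⟩, ⟨[77, 202, 178, 147], 1, 3, [46, 269, 169, 57], []⟩]),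
  (11, []),
  (17, []),
  (7, []),
  (0, [⟨[4, 0, 0, 0, 0, 319, 0, 0, 0, 0, 6, 0, 0, 0, 0], 1, 3, [0, 0, 0, 183, 0, 0, 0, 0, 276, 0, 0, 0, 0, 188], []⟩]),
  (0, [⟨[104, 108, 101], 1, 3, [171, 166, 48], []⟩, ⟨[324, 182, 287, 144, 160, 76, 130, 39, 333, 230, 138, 236], 1, 3, [289, 31, 304, 280, 106, 243, 291, 39, 322, 90, 181, 62], []⟩]),
  (11, []),
  (7, []),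
  (0, [⟨[169], 1, 1, [1], [-4, 0, 8, -2, 10, 4, 0, -5, 1, -6, -1, 0, 1, 0, 1]⟩, ⟨[314, 49], 1, 2, [145, 334], [0, 2, -6, -6, -8, 0, -4, 5, 5, 5, 0, 1, -1, -1, -1]⟩, ⟨[299, 322, 127, 120], 1, 3, [176, 159, 314, 137], []⟩, ⟨[299, 143, 127, 178], 1, 3, [25, 93, 100, 164], []⟩, ⟨[2, 308, 240, 178], 1, 3, [299, 121, 139], []⟩]),
  (0, [⟨[56, 254, 238], 1, 3, [165, 119, 73], []⟩, ⟨[5, 324, 34, 311, 269, 279], 1, 3, [237, 21, 226, 190, 281, 91], []⟩, ⟨[5, 289, 130, 57, 312, 181], 1, 3, [74, 153, 307, 200, 314, 172], []⟩]),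
  (0, [⟨[312], 1, 1, [1], [4, 0, -2, 2, 0, -2, 0, 1, -1]⟩, ⟨[255, 41], 1, 2, [235, 221], [8, -4, -2, 2, 2, -8, 4, 1, -1, -1, 2, -1]⟩, ⟨[280, 294, 25, 309], 1, 3, [136, 100, 151, 139], []⟩, ⟨[280, 277, 25, 3], 1, 3, [208, 21, 160, 193], []⟩, ⟨[4, 86, 84, 41], 1, 3, [216, 55, 0, 288], []⟩]),
  (0, [⟨[261], 1, 1, [1], [0, 4, -8, 8, 0, 0, -2, 5, -5, 0, 0, 0, -1, 1]⟩, ⟨[89, 336], 1, 2, [88, 273], [-2, -6, 0, 2, -18, 2, 4, 0, -1, 11, 0, -1, 0, 0, -2]⟩, ⟨[89, 121], 1, 2, [260, 328], [2, 2, -8, 0, 16, 0, -4, 5, 0, -10, 0, 1, -1, 0, 2]⟩, ⟨[158, 0, 0, 0, 0, 106, 0, 0, 0, 0], 1, 3, [131, 270, 285, 49, 18, 246, 116, 175, 171, 221], []⟩]),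
  (19, []),
  (0, [⟨[85, 365, 5], 1, 3, [50, 221, 115], []⟩, ⟨[354, 99, 29, 189, 345, 222, 121, 227, 139, 177, 344, 362], 1, 3, [6, 148, 257, 102, 192, 131, 196, 358, 284, 47, 50, 38], []⟩]),
  (7, []),
  (0, [⟨[307, 70, 195], 1, 3, [24, 295, 99], []⟩, ⟨[147, 122, 332, 343, 43, 110, 182, 37, 191, 360, 324, 178], 1, 3, [100, 311, 37, 30, 266, 26, 55, 200, 239, 188, 16, 53], []⟩]),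
  (13, []),
  (0, [⟨[245, 108, 138], 1, 3, [124, 119, 161], []⟩, ⟨[236, 116, 100, 293, 63, 272], 1, 3, [173, 67, 358, 161, 280, 369], []⟩, ⟨[236, 193, 149, 343, 20, 348], 1, 3, [118, 149, 134, 140, 288, 136], []⟩]),
  (0, [⟨[193], 1, 1, [1], [-2, 0, -2, 10, -8, 0, 0, 0, -6, 5, 0, 0, 0, 1, -1]⟩, ⟨[115, 185], 1, 2, [179, 114], [6, 4, -12, 10, 10, -4, -4, 8, -6, -6, 1, 1, -2, 1, 1]⟩, ⟨[354, 236, 285, 190], 1, 3, [315, 210, 0, 280], []⟩, ⟨[180, 41, 283, 225], 1, 3, [138, 118, 99, 188], []⟩, ⟨[180, 169, 283, 356], 1, 3, [343, 95, 41, 187], []⟩]),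
  (0, [⟨[336], 1, 1, [1], [-2, 0, 2, 12, 0, 0, 0, -1, -6, 0, 0, 0, 0, 1]⟩, ⟨[303, 276], 1, 2, [377, 17], [4, -6, 2, 6, 0, -2, 4, -1, -4, 0, 1, -1, 0, 1]⟩, ⟨[303, 166], 1, 2, [34, 173], [6, 2, -6, 4, -10, -2, 0, 4, -1, 6, 0, 0, -1, 0, -1]⟩, ⟨[138, 0, 0, 0, 0, 271, 0, 0, 0, 0], 1, 3, [268, 231, 236, 67, 135, 266, 27, 343, 75, 205], []⟩]),
  (17, []),
  (0, [⟨[264], 1, 1, [1], [4, -2, -6, 0, 0, -4, 0, 5, 0, 0, 1, 0, -1]⟩, ⟨[89], 1, 1, [1], [4, 0, -2, -2, -8, -4, 0, 1, 1, 5, 1, 0, 0, 0, -1]⟩, ⟨[328], 1, 1, [1], [-2, 0, -6, 2, 10, 0, 0, 4, -1, -6, 0, 0, -1, 0, 1]⟩, ⟨[36, 103, 19, 308], 1, 3, [163, 360, 75], []⟩, ⟨[388, 190, 3, 69], 1, 3, [106, 28, 97], []⟩, ⟨[387, 15, 176, 133], 1, 3, [277, 90, 127], []⟩]),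
  (0, [⟨[220, 0, 0, 0, 0], 1, 3, [0, 0, 0, 9], []⟩, ⟨[226, 0, 0, 0, 0, 187, 0, 0, 0, 0], 1, 3, [0, 0, 0, 397, 0, 0, 0, 0, 135], []⟩]),
  (13, []),
  (11, []),
  (0, [⟨[45, 315, 391], 1, 3, [219, 351, 195], []⟩, ⟨[20, 64, 384, 14, 35, 132], 1, 3, [165, 342, 9, 184, 181, 266], []⟩, ⟨[20, 205, 357, 406, 229, 295], 1, 3, [264, 372, 329, 389, 250, 400], []⟩]),
  (7, []),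
  (0, [⟨[109], 1, 1, [1], [6, 6, 0, 2, 0, -4, -4, 0, -1, 0, 1, 1]⟩, ⟨[270, 85], 1, 2, [362, 95], [-2, -6, 0, 0, 16, 2, 4, 0, 0, -10, -1, -1, 0, 0, 2]⟩, ⟨[270, 225], 1, 2, [353, 414], [2, 0, 2, 20, 0, 0, 0, -3, -11, 0, 0, 0, 1, 2]⟩, ⟨[337, 0, 0, 0, 0, 241, 0, 0, 0, 0], 1, 3, [372, 237, 306, 371, 124, 68, 387, 210, 85, 59], []⟩]),
  (0, [⟨[4, 0, 0, 0, 0, 409, 0, 0, 0, 0, 6, 0, 0, 0, 0], 1, 3, [0, 0, 0, 327, 0, 0, 0, 0, 283, 0, 0, 0, 0, 218], []⟩]),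
  (7, []),
  (0, [⟨[421, 0, 0, 0, 0], 1, 3, [0, 0, 0, 301], []⟩, ⟨[259, 0, 0, 0, 0, 16, 0, 0, 0, 0], 1, 3, [0, 0, 0, 164, 0, 0, 0, 0, 389], []⟩]),
  (0, [⟨[58], 1, 1, [1], [4, 0, -10, 0, 0, -4, 0, 5, 0, 0, 1, 0, -1]⟩, ⟨[273], 1, 1, [1], [4, -2, -4, 8, 0, -4, 0, 1, -5, 0, 1, 0, 0, 1]⟩, ⟨[13], 1, 1, [1], [2, 0, 0, 8, 2, 0, 0, 0, -5, -1, 0, 0, 0, 1]⟩, ⟨[222, 253, 380, 160], 1, 3, [250, 242, 0, 365], []⟩, ⟨[392, 171, 100, 375], 1, 3, [84, 315, 0, 272], []⟩, ⟨[17, 401, 264, 420], 1, 3, [268, 387, 0, 404], []⟩]),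
  (19, []),
  (0, [⟨[372], 1, 1, [1], [4, 0, -6, 2, 0, -4, 0, 5, 0, 0, 1, 0, -1]⟩, ⟨[395], 1, 1, [1], [2, 0, 0, -2, -8, 0, 0, -1, 1, 5, 0, 0, 0, 0, -1]⟩, ⟨[219], 1, 1, [1], [-2, 0, 0, 2, -8, 0, 0, 0, 0, 5, 0, 0, 0, 0, -1]⟩, ⟨[329, 35], 1, 2, [179, 203], [2, 0, 2, -18, 2, -4, 0, 0, 11, -1, 1, 0, 0, -2]⟩, ⟨[340, 206], 1, 2, [74, 76], [4, 8, 6, -4, 2, -2, -4, -5, 4, -1, 0, 1, 1, -1]⟩, ⟨[259, 7], 1, 2, [17, 246], [2, -2, 4, -6, 12, -4, 0, -1, 5, -6, 1, 0, 0, -1, 1]⟩, ⟨[259, 37], 1, 2, [412, 393], [6, 0, -4, 8, -6, -4, 0, 1, -5, 4, 1, 0, 0, 1, -1]⟩, ⟨[340, 300], 1, 2, [116, 128], [2, 10, 0, -8, -2, -4, -6, 0, 6, 1, 1, 1, 0, -1]⟩, ⟨[329, 185], 1, 2, [258, 244], [-2, 6, -2, -4, -8, 0, -4, 0, 4, 5, 0, 1, 0, -1, -1]⟩]),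
  (0, [⟨[267], 1, 1, [1], [-2, 2, -2, 8, 0, 0, 0, 0, -5, 0, 0, 0, 0, 1]⟩, ⟨[93, 320], 1, 2, [363, 222], [6, -2, -2, 6, 2, -6, 0, 1, -4, -1, 1, 0, 0, 1]⟩, ⟨[211, 248, 97, 421], 1, 3, [402, 315, 344, 359], []⟩, ⟨[211, 274, 97, 145], 1, 3, [53, 8, 348, 171], []⟩, ⟨[173, 218, 34, 176], 1, 3, [357, 76, 0, 306], []⟩]),
  (0, [⟨[203], 1, 1, [1], [-2, 0, -6, -2, 0, 0, 0, 2, 1]⟩, ⟨[99, 426], 1, 2, [365, 266], [10, -2, -2, -10, 2, -6, 0, 1, 5, -1, 1, 0, 0, -1]⟩, ⟨[99, 269], 1, 2, [345, 378], [-2, 2, -4, 10, 0, 0, -4, 5, -6, 0, 0, 1, -1, 1]⟩, ⟨[171, 0, 0, 0, 0, 371, 0, 0, 0, 0], 1, 3, [171, 386, 149, 306, 159, 54, 166, 77, 381, 212], []⟩]),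
  (11, []),
  (0, [⟨[387], 1, 1, [1], [-4, -2, 2, -2, 0, 4, 0, -1, 0, 0, -1]⟩, ⟨[347], 1, 1, [1], [2, -2, -2, 10, 0, 0, 0, 0, -6, 0, 0, 0, 0, 1]⟩, ⟨[315], 1, 1, [1], [-2, 0, 2, 6, 0, 0, 0, -1, -4, 0, 0, 0, 0, 1]⟩, ⟨[4, 216, 239, 110], 1, 3, [296, 223, 320], []⟩, ⟨[323, 250, 127, 70], 1, 3, [190, 423, 236], []⟩, ⟨[63, 183, 401, 142], 1, 3, [173, 1, 354], []⟩]),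
  (0, [⟨[160, 0, 0, 0, 0], 1, 3, [0, 0, 0, 247], []⟩, ⟨[242, 0, 0, 0, 0, 307, 0, 0, 0, 0], 1, 3, [0, 0, 0, 88, 0, 0, 0, 0, 363], []⟩]),
  (0, [⟨[185, 201, 357], 1, 3, [452, 357, 50], []⟩, ⟨[20, 191, 322, 40, 77, 344, 56, 437, 345, 11, 138, 106], 1, 3, [330, 315, 283, 360, 9, 15, 361, 328, 409, 440, 77, 340], []⟩]),
  (0, [⟨[8], 1, 1, [1], [0, 0, -2, -4, -8, 0, 0, 1, 1, 5, 0, 0, 0, 0, -1]⟩, ⟨[40, 29], 1, 2, [335, 460], [0, 8, -2, 10, 10, 0, -4, 3, -6, -6, 0, 1, -1, 1, 1]⟩, ⟨[268, 305, 440, 37], 1, 3, [126, 269, 281, 454], []⟩, ⟨[107, 422, 403, 459], 1, 3, [359, 110, 261], []⟩, ⟨[268, 388, 440, 401], 1, 3, [84, 61, 412, 379], []⟩]),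
  (7, []),
  (11, []),
  (0, [⟨[355], 1, 1, [1], [-2, -2, 4, -8, 0, 4, 0, -4, 5, 0, -1, 0, 1, -1]⟩, ⟨[431, 135], 1, 2, [379, 445], [-2, 0, 16, -6, -2, 0, 0, -10, 5, 1, 0, 0, 2, -1]⟩, ⟨[431, 468], 1, 2, [297, 54], [0, 0, 4, 2, 12, 0, 0, -1, -4, -6, 0, 0, 0, 1, 1]⟩, ⟨[235, 0, 0, 0, 0, 218, 0, 0, 0, 0], 1, 3, [263, 380, 319, 370, 13, 313, 321, 270, 62, 394], []⟩]),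
  (13, []),
  (0, [⟨[433, 403, 409], 1, 3, [154, 350, 251], []⟩, ⟨[451, 56, 19, 269, 4, 263, 4, 191, 62, 313, 331, 78], 1, 3, [319, 304, 192, 5, 327, 228, 435, 236, 52, 351, 370, 386], []⟩]),
  (0, [⟨[337, 0, 0, 0, 0], 1, 3, [0, 0, 0, 21], []⟩, ⟨[389, 0, 0, 0, 0, 160, 0, 0, 0, 0], 1, 3, [0, 0, 0, 101, 0, 0, 0, 0, 11], []⟩]),
  (17, []),
  (7, []),
  (0, [⟨[158], 1, 1, [1], [2, 0, -4, 10, 0, 0, 0, 4, -6, 0, 0, 0, -1, 1]⟩, ⟨[14], 1, 1, [1], [-8, 0, -8, 0, 0, 8, 0, 5, 0, 0, -2, 0, -1]⟩, ⟨[77], 1, 1, [1], [-4, 2, -8, -10, 0, 4, 0, 5, 6, 0, -1, 0, -1, -1]⟩, ⟨[485, 378], 1, 2, [371, 35], [-6, 0, 4, 8, 0, 8, 0, 0, -5, 0, -2, 0, 0, 1]⟩, ⟨[303, 343], 1, 2, [195, 252], [2, 8, 2, 0, -2, 0, -6, -1, -1, 1, 0, 1]⟩, ⟨[485, 462],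 1, 2, [68, 179], [-4, 4, -8, 0, -16, 4, -4, 5, 0, 10, -1, 1, -1, 0, -2]⟩, ⟨[59, 282], 1, 2, [483, 262], [-2, -6, 4, -8, -2, 0, 6, -1, 5, 0, 0, -1, 0, -1]⟩, ⟨[59, 140], 1, 2, [353, 330], [0, 2, -2, -10, -2, 0, 0, 1, 5, 0, 0, 0, 0, -1]⟩, ⟨[303, 142], 1, 2, [411, 191], [10, -2, 0, -2, 0, -6, 2, 0, 1, 0, 1]⟩]),
  (0, [⟨[206], 1, 1, [1], [6, -2, -2, -8, 0, -4, 0, 0, 5, 0, 1, 0, 0, -1]⟩, ⟨[98, 243], 1, 2, [315, 370], [10, 4, 8, -10, -2, -6, -4, -5, 5, 1, 1, 1, 1, -1]⟩, ⟨[456, 199, 11, 493], 1, 3, [249, 56, 350, 224], []⟩, ⟨[348, 324, 319, 297], 1, 3, [193, 145, 0, 273], []⟩, ⟨[456, 477, 11, 270], 1, 3, [495, 153, 366, 11], []⟩]),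
  (0, [⟨[206], 1, 1, [1], [-2, 6, 0, 0, 0, 4, -4, 0, 0, 0, -1, 1]⟩, ⟨[320, 318], 1, 2, [73, 150], [6, 0, -2, -14, -10, -6, 0, 1, 6, 6, 1, 0, 0, -1, -1]⟩, ⟨[320, 494], 1, 2, [394, 324], [0, -4, 8, 10, -2, 2, 4, -5, -6, 1, -1, -1, 1, 1]⟩, ⟨[41, 0, 0, 0, 0, 93, 0, 0, 0, 0], 1, 3, [333, 158, 320, 83, 171, 489, 6, 504, 35, 389], []⟩]),
  (7, []),
  (11, []),
  (0, [⟨[435, 0, 0, 0, 0], 1, 3, [0, 0, 0, 178], []⟩, ⟨[412, 0, 0, 0, 0, 92, 0, 0, 0, 0], 1, 3, [0, 0, 0, 149, 0, 0, 0, 0, 394], []⟩]),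
  (0, [⟨[135, 223, 115], 1, 3, [304, 54, 232], []⟩, ⟨[399, 15, 507, 466, 197, 188, 420, 333, 341, 361, 150, 408], 1, 3, [478, 155, 78, 29, 187, 342, 507, 51, 217, 101, 341, 425], []⟩])] (by decide +kernel)

theorem ra {F : Type*} [Field F] [NumberField F] {α : NumberField.RingOfIntegers F} (h : Gen α fl) :
    Range F 30 274522 0 524 :=
  have hs : splitOK fl m 2 ρ = true := by decide +kernel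
  ((a0.range h hs).trans (a1.range h hs)).trans (a2.range h hs)

end Pool.Agent.Lib.MP_ab8df0_nt.A.N4
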