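import Pool.Agent.Lib.MP_ab8df0_nt.A.N4.Main
import Pool.Agent.Lib.MP_ab8df0_nt.A.Twr

/-! The same in terms of a uniformizer at the prime above two. -/

namespace Pool.Agent.Lib.MP_ab8df0_nt.A.N4

open Pool.Agent.Lib.MP_ab8df0_nt.A

open NumberField IsDedekindDomain

variable {F : Type*} [Field F] [NumberField F] {α : 𝓞 F}

/-- Lower coefficients of the Eisenstein polynomial. -/
def fb : List ℤ := [-2, 0, 0, 0, 0, -12, 0, 0, 0, 0, -18, 0, 0, 0, 0]

instance : Fact (Irreducible (mq fb)) := ⟨irr_of_eis Nat.prime_two (by decide +kernel)⟩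

/-- The generators. -/
def gb : Fin 14 → List ℤ := ![[-1],
  [0, 0, -87, 0, 0, 0, 0, -219, 0, 0, 0, 0, 12],
  [2],
  [-9, 0, -87, 0, 0, 0, 0, -219, 0, 0, 0, 0, 12],
  [9, 0, 0, 0, 249, 0, 0, 0, 0, 714, 0, 0, 0, 0, -39],
  [-75, 0, 0, 0, 0, -276, 0, 0, 0, 0, 15],
  [-447, 0, 0, 0, 0, -1542, 0, 0, 0, 0, 84],
  [-9, 162, 87, 0, 0, 0, 495, 219, 0, 0, 0, -27, -12],
  [-66, 0, 0, -228, -249, -276, 0, 0, -771, -714, 15, 0, 0, 42, 39],
  [2, 0, -12, 0, 0, 0, 0, -18, 0, 0, 0, 0, 1],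
  [-66, 0, -108, 0, 498, -276, 0, -162, 0, 1428, 15, 0, 9, 0, -78],
  [0, 498, 456, 0, 0, 0, 1428, 1542, 0, 0, 0, -78, -84],
  [-18, 174, 0, 0, 0, 0, 438, 0, 0, 0, 0, -24],
  [-18, -324, 0, -42, -498, 0, -990, 0, 114, -1428, 0, 54, 0, -6, 78]]

theorem SUb (h : Gen α fb) {ξ : F} (h0 : ξ ≠ 0)
    (hξ : ∀ v : HeightOneSpectrum (𝓞 F), ((30 : ℕ) : 𝓞 F) ∉ v.asIdeal →
      ∃ k : ℤ, v.valuation F ξ = WithZero.exp (2 * k)) :
    ∃ (e : Fin 14 → Bool) (u : F), ξ = (∏ i, if e i then ev (α : F) (gb i) else 1) * u ^ 2 :=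
  (h.other (l := [0, 0, -29, 0, 0, 0, 0, -73, 0, 0, 0, 0, 4]) (d := 3) (gl := fl)
    (l' := [0, 0, 0, 8, 0, 0, 0, 0, -5, 0, 0, 0, 0, 1]) (d' := 2) (by decide +kernel)).elim fun _ h1 =>
  su_transfer h.root h1.1 (c := ![1, 3, 1, 3, 3, 3, 3, 3, 3, 1, 3, 3, 3, 3]) (s := [1]) (by decide +kernel) (SU h1.2 h0 hξ)

theorem re0 (h : Gen α fb) : ∃ φ : F →+* ℝ, ((1795279556091760106666158838874 : ℤ) : ℝ) / ((10 ^ 30 : ℕ) : ℝ) < φ α ∧
    φ α < ((1795279556091760106666158838875 : ℤ) : ℝ) / ((10 ^ 30 : ℕ) : ℝ) := h.real (by decide +kernel)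

/-- The common denominator. -/
def den : ℤ := 3

/-- Numerator of a tower element. -/
def th : List ℤ := [-26, 0, 0, 0, 0, -73, 0, 0, 0, 0, 4]

/-- Numerator of a tower element. -/
def al : List ℤ := [0, 3]

theorem tw0 {K : Type*} [Field K] [CharZero K] {a : K} (h : a ^ fb.length + ev a fb = 0) :
    (ev a th / den) ^ 3 = 2 := by
  have := ex_zero_div h (D := den) (ls := [th, al])
    (e := (.add (.pow (.v 0) 3) (.neg (.c 2)))) (by decide +kernel)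
  simp only [List.map, Ex.evR, Ex.evR_pow, nth0] at this
  push_cast at this
  linear_combination this

theorem tw1 {K : Type*} [Field K] [CharZero K] {a : K} (h : a ^ fb.length + ev a fb = 0) :
    (a ^ 5 * ((ev a th / den) - 1) ^ 2) = (ev a th / den) := by
  have := ex_zero_div h (D := den) (ls := [th, al])
    (e := (.add (.mul (.pow (.v 1) 5) (.pow (.add (.v 0) (.neg (.c 1))) 2)) (.neg (.v 0)))) (by decide +kernel)
  simp only [List.map, Ex.evR, Ex.evR_pow, nth0, nth1] at this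
  rw [show ev a al / den = a by simp [al, den]] at this
  push_cast at this
  linear_combination this

end Pool.Agent.Lib.MP_ab8df0_nt.A.N4
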